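import Pool.Agent.Q59.CC.Paired

/-!
# The absolute Hodge conjecture for cyclic covers of arbitrary varieties

For `j ∈ J` (a finite set) let `Y_j` be an arbitrary smooth projective complex variety, and `Z`
another one. Let `L_j` be a sufficiently ample line bundle on `Y_j`, `q j` a prime number or `4`, and
`X_j → Y_j` the cyclic cover of degree `q j` whose branch divisor `D_j` is a very general member of
the linear system of `L_j ^ (q j)` (very general: the tuple of the `D_j` is outside a countable union of
proper closed subsets, which depends on `Z` and the `Y_j`). For `q j = 1` we mean by `X_j` a very general
divisor `D_j` in the linear system of `L_j` itself. We suppose that `(Y_j, L_j)` depends only on `q j` if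
`q j > 2`: so there can be several covers of the same degree, but they belong to one family.
There is no such condition for `q j = 1` and `q j = 2`, and no condition on the dimensions. (The
same divisor may be used for several `q j`, but not for both `2` and `4`.)

**Cohomology.** Let `n = dim Y_j`. For a character `a ≠ 0` of the covering group the eigenspace `V_(j, a)`
in the cohomology of `X_j` is concentrated in the degree `n`, and has the dimension
`(-1) ^ n (e (Y_j) - e (D_j))`, since `Y_j - D_j` is affine; the rest of the cohomology is the cohomology
of `Y_j`. For the divisor (`q j = 1`) `V_(j, 0)` is the vanishing cohomology, in the degree `n - 1`; by the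
theorems of Lefschetz the rest of the cohomology comes from `Y_j` (up to powers of the hyperplane class).
Let `N` be a common multiple of the `q j`, and write `a` as a residue modulo `N`, killed by `q j`.

**The Hodge numbers of the determinants.** The fixed point formula of Atiyah and Singer for the `χ_y`
genus and its derivative at `y = -1` gives, for every `Y_j` and every smooth `D_j`,
`∑ (n - r) h ^ (r, n - r) = n dim V / 2 + (-1) ^ (n - 1) e (D_j) (a / N - 1 / 2)`, `0 < a < N`, for the Hodge
numbers of `V = V_(j, a)`, for one of the two identifications of the characters with residues. So the
determinant of `V_(j, a)` has, at the embedding given by a unit `t`, the Hodge number (minus half the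
weight) `excess t (j, a)`, where `euler j` is `(-1) ^ (n - 1) e (D_j)`. It is zero if `2 a = 0`.

**Monodromy.** Let `D` be the group of the linear maps which preserve all `V_i`, `i ∈ Label`, and the
pairings, and have the determinant one on `V_i` unless the pairing is an alternating form on `V_i`: a
product of special linear groups, for the pairs `(j, ± a)`, `2 a ≠ 0`, and of symplectic and special
orthogonal groups for `2 a = 0` (in the first case the sign of the pairing of `V_i` and `V_(star i)` does
not matter, and can be chosen such that the pairing is alternating). `D` is the identity component of
the Zariski closure of the monodromy group of the family of all `(D_j)`: the discriminants are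
irreducible, the local monodromy on `V_(j, a)` is a complex reflection with the nontrivial eigenvalue
`± exp (2 π i a / N)` or a transvection, the vanishing cycles generate `V_(j, a)`, and the group is
infinite since `L_j` is sufficiently ample (Carlson and Toledo, Discriminant complements and kernels of
monodromy representations; Deligne, La conjecture de Weil II, for `2 a = 0`); different labels are
independent since the eigenvalues of the reflections are different (Goursat, Kolchin, Ribet). So the
Hodge classes are invariant under `D` (Deligne; André), and on the invariants of `D` the
Hodge operator on `V_i` can be replaced by its average eigenvalue.

**Hodge tensors.** A component of the cohomology of the product of `Z` and of powers of the `Y_j` and `X_j`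
is the tensor product of `s` of the spaces `V_i` with a part `W` of the cohomology of the product of
`Z` and powers of the `Y_j`. Let `K` be the field of the `N`-th roots of unity, and for a unit `t`
modulo `N` and a number `r` let `F t r` be the span in `W` of the classes with coefficients in `K` whose
conjugates by the automorphism of `K` given by `t` are of type `(., r)`. If `2 c` is the weight of `W`,
then the Hodge classes span over `ℂ` the space of the Hodge tensors (`IsHodgeTensor`), and `z ∈ F t c`
for all `t` means that `z` is a combination of Hodge classes.

**The theorem.** Every Hodge tensor is a combination of products of Hodge classes `z`, of pairings, and of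
determinants of the `V_i`, `i = μ k`, where the list `μ` is reduced and paired: the determinants of
different `V_i` with symmetric forms, and products of determinants `det V_(j, a) det V_(j', -a)`,
where the covers `j` and `j'` belong to the same family.

**Absolute Hodge classes.** All these products are combinations of absolutely Hodge classes if
the `z` are:

* the pairings are algebraic: combinations of the graphs of the covering automorphisms, and of the
  diagonal of `D_j` and classes from `Y_j × Y_j`;
* the determinant of a space `V_i` with a symmetric form (which is rational, as is the form): let `e` be
  a rational basis of the determinant. Then `⟨e, e⟩` is a rational number, and the same is true for the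
  conjugate variety; the two numbers differ by a square (they do so in every `ℚ_ℓ`, since étale cohomology
  is compatible with conjugation), so we can suppose that they are equal. Since conjugation is
  compatible with the forms, the conjugate of `e` is `e'` or `- e'`, in de Rham cohomology and in `ℓ`-adic
  cohomology for all `ℓ`, so it is a Hodge class in both;
* `det V_(j, a) det V_(j', -a)`, with coefficients in `K`: it is flat over a finite cover of the
  parameter space of the pairs `(D_j, D_(j'))`, and at the points with `D_j = D_(j')` it is a polynomial in
  the pairing of `V_(j, a)` and `V_(j, -a)`, so algebraic. So it is absolutely Hodge everywhere (Deligne's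
  principle B).

Therefore:

**If all Hodge classes on the products of `Z` and powers of the `Y_j` are absolutely Hodge (in the sense
of Q1 and Q2), and if the cohomology of these products contains no nontrivial Hodge structures of CM
type (`NoCM`), then all Hodge classes on all products of `Z` and powers of the `Y_j` and `X_j` are
absolutely Hodge.** This is so if `Z` and the `Y_j` are abelian varieties, curves or K3 surfaces
without CM parts (Deligne), for example for the products of very general divisors and cyclic covers
of prime degrees of abelian varieties. For these the Hodge conjecture is not known in even
dimensions, nor for two covers of one family.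
-/

namespace Pool.Agent.Results.MP_e2e4f5_ag.CyclicCovers

open Pool.Agent.Q59.LS Pool.Agent.Q59.CC

/-- **The absolute Hodge conjecture for cyclic covers of arbitrary varieties.** -/
theorem result (J : Type) [Fintype J] [DecidableEq J] (C : Covers J) (hC : SameFamily C)
    (N : ℕ) [NeZero N] (ε : Letter (spaces N C) → ℂ)
    (hε : ∀ x, ¬ (spaces N C).orth x.1 = true → ε (dual x) = -ε x) (hε0 : ∀ x, ε x ≠ 0)
    (W : Type) [AddCommGroup W] [Module ℂ W] (F : (ZMod N)ˣ → ℚ → Submodule ℂ W) (hF : NoCM F)
    (c : ℚ) (s : ℕ) (x : (Fin s → Letter (spaces N C)) → W) (hx : IsHodgeTensor ε F c x) :
    x ∈ spanZ (fun _ μ z => (∀ t : (ZMod N)ˣ, z ∈ F t c) ∧
      Reduced (spaces N C) μ ∧ Paired μ) ε (Fin s) :=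
  spanZ_mono (fun _ _ _ h => ⟨h.1, h.2.1, paired_of_balanced hC h.2.2⟩) (core hε hε0 hF hx)

end Pool.Agent.Results.MP_e2e4f5_ag.CyclicCovers
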