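import Pool.Agent.Q60.ZGU.OnePow

/-!
# The conjugates of the Hodge classes on one power decide about all powers, for every single
# comparison isomorphism

Let `X` be a smooth projective complex variety with total Betti number `b`, `σ` an automorphism of
`ℂ`, and consider one comparison isomorphism (the de Rham one or the `ℓ`-adic one), which maps the
classes on `X ^ n` to classes on the conjugate variety `X_σ ^ n`. If the conjugates of the Hodge
classes on `X ^ N` are Hodge classes, then this is true for all powers of `X`, where `N ≥ b ^ 3` if the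
centre of the algebra of the endomorphisms of `H(X)` given by Hodge classes on `X × X` is a product of
totally real fields, and `N ≥ exp (64 b ^ (2/3) log (2 b))` in general.
-/

open CategoryTheory AlgebraicGeometry

universe u

namespace Pool.Agent.Results.MP_e2e4f5_ag.HodgeOnOnePower

open Pool.Agent.H914
open Pool.Agent.Y121.AHS (HodgeTheory Conjugates)
open Pool.Agent.Q60.FI (Polarisable TotallyRealCentre)
open Pool.Agent.Q60.CJ (Preserved)

variable {k : Type u} [Field k] {𝒱 : VarClass k} {ops : CycleOps 𝒱}

/-- The product of `n` copies of `X`, for `n ≥ 1`. -/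
noncomputable def power (X : 𝒱.Obj) (n : ℕ) : 𝒱.Obj := Pool.Agent.Y133.Half.pw X (n - 1)

/-- **Hodge classes**: `T` is the Hodge theory `X ↦ H(X, ℚ)`, `D.T' (D.t a)` is the conjugate theory
`X ↦ H(X_σ, ℚ)`, and `a` is the index of the comparison isomorphism. `power X n` is the product of `n`
copies of `X`. -/
theorem result (T : HodgeTheory ops) (D : Conjugates T) (a : D.J) (X : 𝒱.Obj)
    (b : ℕ) (hb : Module.finrank T.W.K (T.W.H X) = b) (hX : Polarisable T X) (N : ℕ)
    (hN : Real.exp (64 * (b : ℝ) ^ (2 / 3 : ℝ) * Real.log (2 * b)) ≤ N ∨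
      b ^ 3 ≤ N ∧ TotallyRealCentre T X)
    (h : Preserved D a (power X N)) (n : ℕ) : Preserved D a (power X n) :=
  Pool.Agent.Q60.ZGU.preserved_power D a hX hb hN h n

end Pool.Agent.Results.MP_e2e4f5_ag.HodgeOnOnePower
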