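import Pool.Agent.Q219.LV.LFin

/-!
# Levels of Hodge groups and absolutely Hodge classes on products

The *level* of a smooth projective variety `X` measures how far the Lie algebra of its Hodge group
moves the Hodge types: `X` has level at most `l` if every element of the Lie algebra maps
`H^(p,q)` into the sum of the `H^(p+r,q-r)` with `|r| ≤ l`. For instance, abelian varieties, curves,
surfaces with `h^(2,0) ≤ 1` and all varieties dominated by products of such varieties have level at
most one. The variety `X` is *free of level `l`* if the Lie algebra of its Hodge group has no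
nonzero ideal of level at most `l`.

* For every comparison isomorphism `C` (for example between the cohomology of `X` and of a
  conjugate of `X`): if `X` has level at most `l` and `Y` is free of level `l`, then `C` maps the
  Hodge classes on `X × Y` to Hodge classes if and only if this holds for `X` and for `Y`. This is
  proved for arbitrary products of varieties which are pairwise separated by levels.
* If moreover powers of the factors are considered, it suffices to know the assertion for one power
  of each factor, whose exponent depends only on the total Betti number.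
-/

open CategoryTheory AlgebraicGeometry

universe u

namespace Pool.Agent.Results.MP_e2e4f5_ag.LevelsOfHodgeGroups

open Pool.Agent.H914
open Pool.Agent.Y121.AHS (HodgeTheory Comparison)
open Pool.Agent.Q219.LV.Lv

variable {k : Type u} [Field k] {𝒱 : VarClass k} {ops : CycleOps 𝒱}

/-- **Levels of Hodge groups and absolutely Hodge classes.** -/
theorem result (T T' : HodgeTheory ops) (hT : ∀ X, IsPolarisable T X) {L : Type} [Field L]
    [Algebra T.W.K L] [Algebra T'.W.K L] (hL : Nonempty (L →+* ℂ)) (C : Comparison T.W T'.W L) :
    (∀ l : ℕ, (∀ X, GeneratedByWidth T l X → LevelAtMost T l X) ∧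
      (∀ X, IsSmallSurface T X → 1 ≤ l → LevelAtMost T l X) ∧
      (∀ X Y, LevelAtMost T l X → LevelAtMost T l Y → LevelAtMost T l (X.prod Y)) ∧
      (∀ X Y, LevelAtMost T l X → Dominates T X Y → LevelAtMost T l Y) ∧
      ∀ X Y, LevelFree T l X → LevelFree T l Y → LevelFree T l (X.prod Y)) ∧
    (∀ (P : 𝒱.Obj) (S : List 𝒱.Obj) (Q : 𝒱.Obj) (R : List 𝒱.Obj),
      (∀ Y ∈ Q :: R, LevelFree T 0 Y ∧ ∀ X ∈ P :: S, Separated T X Y) →
      (Preserved C ((times P S).prod (times Q R)) ↔
        Preserved C (times P S) ∧ Preserved C (times Q R))) ∧
    ∀ (P : 𝒱.Obj) (R : List (𝒱.Obj × ℕ)), (P :: R.map Prod.fst).Pairwise (Separated T) →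
      (∀ p ∈ R, LevelFree T 0 p.1 ∧ ∃ N, IsLarge T p.1 N ∧ Preserved C (power p.1 N)) →
      Preserved C P → Preserved C (times P (powers R)) :=
  Pool.Agent.Q219.LV.final_theorem T T' hT hL C

end Pool.Agent.Results.MP_e2e4f5_ag.LevelsOfHodgeGroups
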