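import Pool.Agent.Q60.ZGU.OnePow

/-!
# The conjugates of Hodge classes as linear combinations of Hodge classes, for every single
# comparison isomorphism

Let `X` be a smooth projective complex variety with total Betti number `b > 0`, `σ` an automorphism
of `ℂ`, and consider one comparison isomorphism (the de Rham one, with coefficients `L = ℂ`, or the
`ℓ`-adic one, with `L = ℚ_ℓ`), which maps the classes on `X ^ n` to classes on the conjugate variety
`X_σ ^ n`. Call `X` free of CM in the centre if the centre of the algebra of the endomorphisms of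
`H(X)` given by Hodge classes on `X × X` is a product of totally real fields.

* Suppose that the conjugates of the Hodge classes on `X ^ N` are `L`-linear combinations of Hodge
  classes on `X_σ ^ N`. Then this is true for all powers of `X`. Here `N ≥ 4` if `X` is free of CM in
  the centre, and `N ≥ exp (64 b ^ (2/3) log (2 b))` in general.
* Suppose that `X` is free of CM in the centre and that the conjugates of the Hodge classes on `X ^ 4`
  are Hodge classes. Then there is one number field `F`, contained in `L` and of degree at most
  `4 ^ (b ^ 2)`, such that for all `n` the conjugates of the Hodge classes on `X ^ n` are linear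
  combinations of Hodge classes on `X_σ ^ n` with coefficients in `F`.
-/

open CategoryTheory AlgebraicGeometry

universe u

namespace Pool.Agent.Results.MP_e2e4f5_ag.SpansOfHodgeClasses

open Pool.Agent.H914
open Pool.Agent.Y121.AHS (HodgeTheory Conjugates)
open Pool.Agent.Q60.FI (Polarisable TotallyRealCentre)
open Pool.Agent.Q60.CJ (Preserved PreservedWith DegreeAtMost)

variable {k : Type u} [Field k] {𝒱 : VarClass k} {ops : CycleOps 𝒱}

/-- The product of `n` copies of `X`, for `n ≥ 1`. -/
noncomputable def power (X : 𝒱.Obj) (n : ℕ) : 𝒱.Obj := Pool.Agent.Y133.Half.pw X (n - 1)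

/-- **Linear combinations of Hodge classes**: `T` is the Hodge theory `X ↦ H(X, ℚ)`, `D.T' (D.t a)` is
the conjugate theory `X ↦ H(X_σ, ℚ)`, and `a` is the index of the comparison isomorphism. `power X n`
is the product of `n` copies of `X`. -/
theorem result (T : HodgeTheory ops) (D : Conjugates T) (a : D.J) (X : 𝒱.Obj)
    [Nontrivial (T.W.H X)] (b : ℕ) (hb : Module.finrank T.W.K (T.W.H X) = b)
    (hX : Polarisable T X) :
    (Polarisable (D.T' (D.t a)) X → ∀ N : ℕ,
      (Real.exp (64 * (b : ℝ) ^ (2 / 3 : ℝ) * Real.log (2 * b)) ≤ N ∨
        4 ≤ N ∧ TotallyRealCentre T X) →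
      PreservedWith D a Set.univ (power X N) → ∀ n, PreservedWith D a Set.univ (power X n)) ∧
    (TotallyRealCentre T X → Preserved D a (power X 4) →
      ∃ F : Subfield (D.L a), DegreeAtMost F (4 ^ b ^ 2) ∧
        ∀ n, PreservedWith D a F (power X n)) := by
  refine ⟨fun hX' N hN h n => Pool.Agent.Q60.ZGU.with_power D a hX hX' hb hN h (n - 1),
    fun hc h4 => ?_⟩
  obtain ⟨F, h1, h2⟩ := Pool.Agent.Q60.CJ.exists_number_field D a hX hc h4
  rw [hb] at h1
  exact ⟨F, h1, fun n => h2 (n - 1)⟩

end Pool.Agent.Results.MP_e2e4f5_ag.SpansOfHodgeClasses
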